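import Pool.Agent.Helper82.NQ.St

/-! Module ENC of project NQ (MP_255fbb_nt): the encoding. -/

set_option autoImplicit false

namespace Pool.Agent.Helper42.NQ

open Finset Pool.Agent.Helper82.NQ

/-- the class of `p` -/
private def cls (n p : ℕ) : Finset ℕ :=
  n.primeFactors.filter fun q => rep q (n.factorization q) = rep p (n.factorization p)

/-- the exponent of the top of `p` -/
private def tp (n p : ℕ) : ℕ := n.factorization ((cls n p).sup id)

open Classical in
/-- the primes above `M` which are not tops -/
private noncomputable def NT (M n : ℕ) : Finset ℕ :=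
  n.primeFactors.filter fun p => M < p ∧
    ∃ q ∈ n.primeFactors, p < q ∧ rep q (n.factorization q) = rep p (n.factorization p)

private noncomputable def ww (M k n : ℕ) : ℕ := ∏ p ∈ NT M n, p ^ (n.factorization p / k)

private def dd (k n p : ℕ) : ℕ := n.factorization p % k + k * tp n p

private noncomputable def code (L M k n : ℕ) :
    (Fin (M + 1) → ℕ) × (Fin (M + 1) → ℕ) × ℕ × (Fin (L / k ^ 2) → ℕ) :=
  (fun i => n.factorization i, fun i => tp n i, ww M k n,
    fun i => dd k n (Nat.nth (fun p => p ∈ (ww M k n).primeFactors) i))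

private theorem fac_le {n x : ℕ} (hn : n ≠ 0) (hx : n ≤ x) (q : ℕ) :
    n.factorization q ≤ Nat.log 2 x := by
  by_cases hq : q.Prime
  · have h1 : q ^ n.factorization q ≤ n := Nat.ordProj_le q hn
    have h2 : 2 ^ n.factorization q ≤ q ^ n.factorization q := Nat.pow_le_pow_left hq.two_le _
    exact Nat.le_log_of_pow_le (by norm_num) ((h2.trans h1).trans hx)
  · rw [Nat.factorization_eq_zero_of_not_prime n hq]
    exact Nat.zero_le _

private theorem rep_lt {p q a : ℕ} (ha : 1 ≤ a) (h : p < q) : rep p a < rep q a := by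
  unfold rep
  refine Finset.sum_lt_sum (fun i _ => Nat.pow_le_pow_left h.le i) ⟨1, ?_, by simpa using h⟩
  rw [Finset.mem_range]
  omega

private theorem rep_inj {p q a : ℕ} (ha : 1 ≤ a) (h : rep p a = rep q a) : p = q := by
  rcases lt_trichotomy p q with h1 | h1 | h1
  · exact absurd h (rep_lt ha h1).ne
  · exact h1
  · exact absurd h (rep_lt ha h1).ne'

private theorem pos_fac {n p : ℕ} (hp : p ∈ n.primeFactors) : 1 ≤ n.factorization p := by
  have h := Nat.support_factorization n
  rw [← h, Finsupp.mem_support_iff] at hp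
  omega

private theorem mem_of_pos {n p : ℕ} (hp : 1 ≤ n.factorization p) : p ∈ n.primeFactors := by
  rw [← Nat.support_factorization n, Finsupp.mem_support_iff]
  omega

/-- primes which are not tops have large exponents -/
private theorem k_lt {n M k p : ℕ} (hc : Cand n) (hM : 2 ^ k ≤ M) (hp : p ∈ NT M n) :
    k < n.factorization p := by
  classical
  unfold NT at hp
  rw [Finset.mem_filter] at hp
  obtain ⟨h1, h2, h3⟩ := hp
  have h4 := (hc.2 p h1).2 h3
  have h5 : 2 ^ k < 2 ^ n.factorization p := lt_of_le_of_lt hM (lt_of_lt_of_le h2 h4)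
  exact (Nat.pow_lt_pow_iff_right (by norm_num)).1 h5

private theorem prime_NT {n M p : ℕ} (hp : p ∈ NT M n) : p.Prime := by
  classical
  unfold NT at hp
  rw [Finset.mem_filter] at hp
  exact Nat.prime_of_mem_primeFactors hp.1

private theorem fac_ww (n M k p : ℕ) :
    (ww M k n).factorization p = if p ∈ NT M n then n.factorization p / k else 0 := by
  unfold ww
  rw [Nat.factorization_prod fun q hq => pow_ne_zero _ (prime_NT hq).ne_zero]
  rw [Finsupp.finset_sum_apply]
  have h : ∀ q ∈ NT M n, ((q ^ (n.factorization q / k)).factorization) p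
      = if q = p then n.factorization q / k else 0 := by
    intro q hq
    rw [(prime_NT hq).factorization_pow, Finsupp.single_apply]
  rw [Finset.sum_congr rfl h, Finset.sum_ite_eq']

private theorem pf_ww {n M k : ℕ} (hk : 1 ≤ k) (hc : Cand n) (hM : 2 ^ k ≤ M) :
    (ww M k n).primeFactors = NT M n := by
  ext p
  rw [← Nat.support_factorization, Finsupp.mem_support_iff, fac_ww]
  constructor
  · intro h
    by_contra h1
    rw [if_neg h1] at h
    exact h rfl
  · intro h
    rw [if_pos h]
    have h1 := k_lt hc hM h
    have h2 : 0 < n.factorization p / k := Nat.div_pos h1.le (by omega)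
    omega

private theorem ww_pow_le {n x M k : ℕ} (hn : n ≠ 0) (hx : n ≤ x) : ww M k n ^ k ≤ x := by
  classical
  refine le_trans ?_ hx
  have h1 : ww M k n ^ k ≤ ∏ p ∈ NT M n, p ^ n.factorization p := by
    unfold ww
    rw [← Finset.prod_pow]
    refine Finset.prod_le_prod' fun p hp => ?_
    rw [← pow_mul]
    exact Nat.pow_le_pow_right (prime_NT hp).pos (Nat.div_mul_le_self _ _)
  have h2 : ∏ p ∈ NT M n, p ^ n.factorization p ≤ ∏ p ∈ n.primeFactors, p ^ n.factorization p := by
    refine Finset.prod_le_prod_of_subset_of_one_le' (Finset.filter_subset _ _) fun p hp _ => ?_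
    exact Nat.one_le_pow _ _ (Nat.pos_of_mem_primeFactors hp)
  have h3 : ∏ p ∈ n.primeFactors, p ^ n.factorization p = n := by
    have := Nat.factorization_prod_pow_eq_self hn
    rw [Finsupp.prod, Nat.support_factorization] at this
    exact this
  rw [h3] at h2
  exact h1.trans h2

private theorem card_NT {n x M k : ℕ} (hk : 1 ≤ k) (hc : Cand n) (hx : n ≤ x) (hM : 2 ^ k ≤ M) :
    (NT M n).card ≤ Nat.log 2 x / k ^ 2 := by
  classical
  have h1 : 2 ^ (k * (NT M n).card) ≤ ww M k n := by
    unfold ww
    rw [pow_mul, ← Finset.prod_const]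
    refine Finset.prod_le_prod' fun p hp => ?_
    have h2 := k_lt hc hM hp
    have h3 : 1 ≤ n.factorization p / k := Nat.div_pos h2.le (by omega)
    have h4 : M < p := by
      unfold NT at hp
      rw [Finset.mem_filter] at hp
      exact hp.2.1
    calc 2 ^ k ≤ p := hM.trans h4.le
      _ = p ^ 1 := (pow_one p).symm
      _ ≤ p ^ (n.factorization p / k) := Nat.pow_le_pow_right (prime_NT hp).pos h3
  have h2 : 2 ^ ((NT M n).card * k ^ 2) ≤ x := by
    calc 2 ^ ((NT M n).card * k ^ 2) = (2 ^ (k * (NT M n).card)) ^ k := by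
          rw [← pow_mul]
          congr 1
          ring
      _ ≤ ww M k n ^ k := Nat.pow_le_pow_left h1 k
      _ ≤ x := ww_pow_le hc.1 hx
  rw [Nat.le_div_iff_mul_le (by positivity)]
  exact Nat.le_log_of_pow_le (by norm_num) h2

/-- decoding for primes which are not tops -/
private theorem nontop {n m x M k : ℕ} (hk : 1 ≤ k) (hM : 2 ^ k ≤ M) (hn : Cand n) (hm : Cand m)
    (hnx : n ≤ x) (h : code (Nat.log 2 x) M k n = code (Nat.log 2 x) M k m) {p : ℕ}
    (hp : p ∈ n.primeFactors)
    (hq : ∃ q ∈ n.primeFactors, p < q ∧ rep q (n.factorization q) = rep p (n.factorization p)) :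
    p ∈ m.primeFactors ∧ n.factorization p = m.factorization p ∧ tp n p = tp m p := by
  classical
  unfold code at h
  rw [Prod.mk.injEq, Prod.mk.injEq, Prod.mk.injEq] at h
  obtain ⟨h1, h2, h3, h4⟩ := h
  by_cases hpM : p ≤ M
  · have e1 : n.factorization p = m.factorization p := congrFun h1 ⟨p, by omega⟩
    have e2 : tp n p = tp m p := congrFun h2 ⟨p, by omega⟩
    refine ⟨mem_of_pos ?_, e1, e2⟩
    rw [← e1]
    exact pos_fac hp
  · have hNT : p ∈ NT M n := by
      unfold NT
      rw [Finset.mem_filter]
      exact ⟨hp, by omega, hq⟩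
    have hpn := pf_ww hk hn hM
    have hpm := pf_ww hk hm hM
    have hNTm : p ∈ NT M m := by
      rw [← hpm, ← h3, hpn]
      exact hNT
    have hw : n.factorization p / k = m.factorization p / k := by
      have e1 := fac_ww n M k p
      have e2 := fac_ww m M k p
      rw [if_pos hNT] at e1
      rw [if_pos hNTm] at e2
      rw [← e1, ← e2, h3]
    -- the index
    have hmem : p ∈ (ww M k n).primeFactors := by
      rw [hpn]
      exact hNT
    have hfin : (setOf fun q => q ∈ (ww M k n).primeFactors).Finite :=
      (ww M k n).primeFactors.finite_toSet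
    have hidx : Nat.count (fun q => q ∈ (ww M k n).primeFactors) p < Nat.log 2 x / k ^ 2 := by
      have e1 : Nat.count (fun q => q ∈ (ww M k n).primeFactors) p < hfin.toFinset.card :=
        Nat.count_lt_card hfin hmem
      have e2 : hfin.toFinset = (ww M k n).primeFactors := by
        ext q
        rw [Set.Finite.mem_toFinset]
        rfl
      rw [e2] at e1
      refine lt_of_lt_of_le e1 ?_
      rw [hpn]
      exact card_NT hk hn hnx hM
    have hnth : Nat.nth (fun q => q ∈ (ww M k n).primeFactors)
        (Nat.count (fun q => q ∈ (ww M k n).primeFactors) p) = p := Nat.nth_count hmem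
    have h5 := congrFun h4 ⟨_, hidx⟩
    beta_reduce at h5
    have hnth' : Nat.nth (fun q => q ∈ (ww M k m).primeFactors)
        (Nat.count (fun q => q ∈ (ww M k n).primeFactors) p) = p := by
      rw [← h3]
      exact hnth
    simp only [hnth, hnth'] at h5
    unfold dd at h5
    have hk0 : 0 < k := hk
    have m1 : (n.factorization p % k + k * tp n p) % k = n.factorization p % k := by
      rw [Nat.add_mul_mod_self_left, Nat.mod_mod]
    have m2 : (m.factorization p % k + k * tp m p) % k = m.factorization p % k := by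
      rw [Nat.add_mul_mod_self_left, Nat.mod_mod]
    have m3 : n.factorization p % k = m.factorization p % k := by
      rw [← m1, ← m2, h5]
    have m4 : tp n p = tp m p := by
      rw [m3] at h5
      exact Nat.eq_of_mul_eq_mul_left hk0 (Nat.add_left_cancel h5)
    have m5 : n.factorization p = m.factorization p := by
      rw [← Nat.div_add_mod (n.factorization p) k, ← Nat.div_add_mod (m.factorization p) k, hw, m3]
    refine ⟨mem_of_pos ?_, m5, m4⟩
    rw [← m5]
    exact pos_fac hp

/-- decoding -/
private theorem full {n m x M k : ℕ} (hk : 1 ≤ k) (hM : 2 ^ k ≤ M) (hn : Cand n) (hm : Cand m)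
    (hnx : n ≤ x) (h : code (Nat.log 2 x) M k n = code (Nat.log 2 x) M k m) {p : ℕ}
    (hp : p ∈ n.primeFactors) : n.factorization p = m.factorization p := by
  by_cases hq : ∃ q ∈ n.primeFactors, p < q ∧
      rep q (n.factorization q) = rep p (n.factorization p)
  · exact (nontop hk hM hn hm hnx h hp hq).2.1
  · obtain ⟨q, hq1, hq2, hq3⟩ := (hn.2 p hp).1
    have hqp : q < p := by
      rcases lt_trichotomy p q with h1 | h1 | h1
      · exact absurd ⟨q, hq1, h1, hq3⟩ hq
      · exact absurd h1.symm hq2
      · exact h1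
    obtain ⟨r1, r2, r3⟩ := nontop hk hM hn hm hnx h hq1 ⟨p, hp, hqp, hq3.symm⟩
    -- the top of the class of `q` in `n`
    have htop : (cls n q).sup id = p := by
      apply le_antisymm
      · refine Finset.sup_le fun r hr => ?_
        unfold cls at hr
        rw [Finset.mem_filter] at hr
        by_contra hcon
        exact hq ⟨r, hr.1, not_le.1 hcon, hr.2.trans hq3⟩
      · have hmem : p ∈ cls n q := by
          unfold cls
          rw [Finset.mem_filter]
          exact ⟨hp, hq3.symm⟩
        exact Finset.le_sup (f := id) hmem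
    have ht1 : tp n q = n.factorization p := by
      unfold tp
      rw [htop]
    -- the top of the class of `q` in `m`
    have hne : (cls m q).Nonempty := ⟨q, by
      unfold cls
      rw [Finset.mem_filter]
      exact ⟨r1, rfl⟩⟩
    obtain ⟨p', hp', hs⟩ := Finset.exists_mem_eq_sup (cls m q) hne id
    have ht2 : tp m q = m.factorization p' := by
      unfold tp
      rw [hs]
      rfl
    unfold cls at hp'
    rw [Finset.mem_filter] at hp'
    have e1 : m.factorization p' = n.factorization p := by rw [← ht2, ← r3, ht1]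
    have e2 : rep p' (n.factorization p) = rep p (n.factorization p) := by
      rw [← hq3, r2, ← hp'.2, e1]
    have e3 := rep_inj (pos_fac hp) e2
    rw [← e1, e3]

private theorem inj {n m x M k : ℕ} (hk : 1 ≤ k) (hM : 2 ^ k ≤ M) (hn : Cand n) (hm : Cand m)
    (hnx : n ≤ x) (hmx : m ≤ x) (h : code (Nat.log 2 x) M k n = code (Nat.log 2 x) M k m) :
    n = m := by
  refine Nat.eq_of_factorization_eq hn.1 hm.1 fun p => ?_
  by_cases h1 : p ∈ n.primeFactors
  · exact full hk hM hn hm hnx h h1
  · by_cases h2 : p ∈ m.primeFactors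
    · exact (full hk hM hm hn hmx h.symm h2).symm
    · rw [← Nat.support_factorization, Finsupp.notMem_support_iff] at h1 h2
      rw [h1, h2]

theorem hENC : StENC := by
  classical
  intro x W hk hW
  set L := Nat.log 2 x with hL
  set M := MM x with hMd
  set k := kk x with hkd
  have hM : 2 ^ k ≤ M := by
    rw [hkd]
    unfold kk
    refine Nat.pow_log_le_self 2 ?_
    intro h0
    unfold kk at hkd
    rw [h0, Nat.log_zero_right] at hkd
    omega
  have hmem : ∀ n ∈ NC x, Cand n ∧ n ≤ x := by
    intro n hn
    unfold NC at hn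
    rw [Finset.mem_filter, Finset.mem_Icc] at hn
    exact ⟨hn.2, hn.1.2⟩
  set T : Finset ((Fin (M + 1) → ℕ) × (Fin (M + 1) → ℕ) × ℕ × (Fin (L / k ^ 2) → ℕ)) :=
    Fintype.piFinset (fun _ : Fin (M + 1) => range (L + 1)) ×ˢ
      (Fintype.piFinset (fun _ : Fin (M + 1) => range (L + 1)) ×ˢ
        (range (W + 1) ×ˢ Fintype.piFinset (fun _ : Fin (L / k ^ 2) => range (k * (L + 1))))) with hT
  have hcard : (NC x).card ≤ T.card := by
    refine Finset.card_le_card_of_injOn (fun n => code L M k n) ?_ ?_
    · intro n hn
      obtain ⟨hc, hx⟩ := hmem n (Finset.mem_coe.1 hn)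
      rw [hT]
      simp only [Finset.coe_product, Set.mem_prod, Finset.mem_coe, Fintype.mem_piFinset,
        Finset.mem_range, code]
      have hf := fac_le hc.1 hx
      have htp : ∀ p, tp n p ≤ L := fun p => hf _
      refine ⟨fun i => Nat.lt_succ_of_le (hf _), fun i => Nat.lt_succ_of_le (htp _),
        Nat.lt_succ_of_le (hW _ (ww_pow_le hc.1 hx)), fun i => ?_⟩
      unfold dd
      have h1 : n.factorization (Nat.nth (fun p => p ∈ (ww M k n).primeFactors) i) % k < k :=
        Nat.mod_lt _ hk
      have h2 := Nat.mul_le_mul_left k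
        (htp (Nat.nth (fun p => p ∈ (ww M k n).primeFactors) i))
      rw [mul_add, mul_one]
      omega
    · intro n hn m hm h
      obtain ⟨hc, hx⟩ := hmem n (Finset.mem_coe.1 hn)
      obtain ⟨hc', hx'⟩ := hmem m (Finset.mem_coe.1 hm)
      exact inj hk hM hc hc' hx hx' h
  refine hcard.trans (le_of_eq ?_)
  rw [hT]
  simp only [Finset.card_product, Fintype.card_piFinset, Finset.card_range, Finset.prod_const,
    Finset.card_univ, Fintype.card_fin]
  ring

end Pool.Agent.Helper42.NQ
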